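import Pool.Agent.Helper99_Eng3.Stmts

/-!
# Squad ENG, part 3, module OEIC: Eichler transformations belong to `Ω`.
-/

set_option autoImplicit false
set_option linter.unusedSectionVars false

namespace Pool.Agent.Eng.H61

open Pool.Agent.Eng QuadraticMap
open scoped commutatorElement

section
variable {F V : Type} [Field F] [AddCommGroup V] [Module F V]

/-- The Eichler transformation as a linear map. -/
noncomputable def eich (Q : QuadraticForm F V) (v x : V) : V →ₗ[F] V :=
  LinearMap.id + (Q.polarBilin v).smulRight x - (Q.polarBilin x).smulRight v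
    - (Q x) • (Q.polarBilin v).smulRight v

lemma eich_apply (Q : QuadraticForm F V) (v x z : V) :
    eich Q v x z = z + polar Q z v • x - polar Q z x • v - (Q x * polar Q z v) • v := by
  simp only [eich, LinearMap.sub_apply, LinearMap.add_apply, LinearMap.id_apply,
    LinearMap.smulRight_apply, LinearMap.smul_apply, QuadraticMap.polarBilin_apply_apply,
    smul_smul, QuadraticMap.polar_comm Q v z, QuadraticMap.polar_comm Q x z]

lemma polar_self0 (Q : QuadraticForm F V) (v : V) (hv : Q v = 0) : polar Q v v = 0 := by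
  rw [QuadraticMap.polar_self, hv]
  simp

lemma polar_eich_left (Q : QuadraticForm F V) (v x z w : V) :
    polar Q (eich Q v x z) w = polar Q z w + polar Q z v * polar Q x w
      - polar Q z x * polar Q v w - Q x * polar Q z v * polar Q v w := by
  rw [eich_apply]
  simp only [sub_eq_add_neg, QuadraticMap.polar_add_left, QuadraticMap.polar_neg_left,
    QuadraticMap.polar_smul_left, smul_eq_mul]

lemma eich_comp (Q : QuadraticForm F V) (v x y z : V) (hv : Q v = 0)
    (hx : polar Q v x = 0) (hy : polar Q v y = 0) :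
    eich Q v x (eich Q v y z) = eich Q v (x + y) z := by
  rw [eich_apply Q v x, polar_eich_left, polar_eich_left, eich_apply Q v y,
    eich_apply Q v (x + y), QuadraticMap.map_add Q x y, QuadraticMap.polar_add_right,
    polar_self0 Q v hv, hx, QuadraticMap.polar_comm Q y v, hy, QuadraticMap.polar_comm Q y x]
  module

lemma eich_isom (Q : QuadraticForm F V) (v x z : V) (hv : Q v = 0)
    (hx : polar Q v x = 0) : Q (eich Q v x z) = Q z := by
  have h : eich Q v x z = z + (polar Q z v • x + (-(polar Q z x + Q x * polar Q z v)) • v) := by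
    rw [eich_apply]
    module
  rw [h, QuadraticMap.map_add Q z, QuadraticMap.map_add Q (polar Q z v • x),
    QuadraticMap.map_smul, QuadraticMap.map_smul, hv, QuadraticMap.polar_add_right,
    QuadraticMap.polar_smul_right, QuadraticMap.polar_smul_right,
    QuadraticMap.polar_smul_right, QuadraticMap.polar_smul_left,
    QuadraticMap.polar_comm Q x v, hx]
  simp only [smul_eq_mul]
  ring

lemma eich_zero (Q : QuadraticForm F V) (v z : V) : eich Q v 0 z = z := by
  rw [eich_apply]
  simp

lemma eich_self (Q : QuadraticForm F V) (v z : V) (c : F) (hv : Q v = 0) :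
    eich Q v (c • v) z = z := by
  rw [eich_apply, QuadraticMap.map_smul, hv, QuadraticMap.polar_smul_right]
  simp only [smul_eq_mul]
  module

/-- The Eichler transformation as a linear equivalence. -/
noncomputable def eichE (Q : QuadraticForm F V) (v x : V) (hv : Q v = 0)
    (hx : polar Q v x = 0) : V ≃ₗ[F] V :=
  LinearEquiv.ofLinearMap (eich Q v x) (eich Q v (-x))
    (by
      ext z
      rw [LinearMap.comp_apply, eich_comp Q v x (-x) z hv hx
        (by rw [QuadraticMap.polar_neg_right, hx, neg_zero]), add_neg_cancel, eich_zero]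
      rfl)
    (by
      ext z
      rw [LinearMap.comp_apply, eich_comp Q v (-x) x z hv
        (by rw [QuadraticMap.polar_neg_right, hx, neg_zero]) hx, neg_add_cancel, eich_zero]
      rfl)

lemma polar_isom (Q : QuadraticForm F V) (g : V ≃ₗ[F] V) (hg : g ∈ OV Q) (u w : V) :
    polar Q (g u) (g w) = polar Q u w := by
  have h : ∀ z, Q (g z) = Q z := hg
  simp only [QuadraticMap.polar, ← map_add, h]

/-- Membership of Eichler transformations in `Ω`. -/
def EM (Q : QuadraticForm F V) (v x : V) : Prop := ∃ g ∈ OmV Q, ∀ z, g z = eich Q v x z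

lemma em_add (Q : QuadraticForm F V) (v x y : V) (hv : Q v = 0)
    (hx : polar Q v x = 0) (hy : polar Q v y = 0) (h1 : EM Q v x) (h2 : EM Q v y) :
    EM Q v (x + y) := by
  obtain ⟨g, hg, h1⟩ := h1
  obtain ⟨h, hh, h2⟩ := h2
  refine ⟨g * h, mul_mem hg hh, fun z => ?_⟩
  change g (h z) = _
  rw [h2, h1, eich_comp Q v x y z hv hx hy]

lemma em_self (Q : QuadraticForm F V) (v : V) (c : F) (hv : Q v = 0) : EM Q v (c • v) :=
  ⟨1, one_mem _, fun z => (eich_self Q v z c hv).symm⟩

/-- The commutator with an isometry having `v` as an eigenvector. -/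
lemma em_comm (Q : QuadraticForm F V) (v x : V) (hv : Q v = 0) (hx : polar Q v x = 0)
    (g : V ≃ₗ[F] V) (hg : g ∈ OV Q) (μ : F) (hμ : μ ≠ 0) (hgv : g v = μ • v) :
    EM Q v (μ • g x - x) := by
  have he : eichE Q v x hv hx ∈ OV Q := fun z => eich_isom Q v x z hv hx
  have hgx : polar Q v (g x) = 0 := by
    have := polar_isom Q g hg v x
    rw [hgv, hx, QuadraticMap.polar_smul_left, smul_eq_mul] at this
    exact (mul_eq_zero.mp this).resolve_left hμ
  refine ⟨⁅g, eichE Q v x hv hx⁆, Subgroup.commutator_mem_commutator hg he, fun z => ?_⟩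
  change g (eich Q v x (g.symm (eich Q v (-x) z))) = _
  have key : ∀ w, g (eich Q v x (g.symm w)) = eich Q v (μ • g x) w := by
    intro w
    have e1 : polar Q (g.symm w) v = μ * polar Q w v := by
      rw [← polar_isom Q g hg (g.symm w) v, LinearEquiv.apply_symm_apply, hgv,
        QuadraticMap.polar_smul_right, smul_eq_mul]
    have e2 : polar Q (g.symm w) x = polar Q w (g x) := by
      rw [← polar_isom Q g hg (g.symm w) x, LinearEquiv.apply_symm_apply]
    have e3 : Q (g x) = Q x := hg x
    rw [eich_apply, eich_apply, map_sub, map_sub, map_add, map_smul, map_smul, map_smul, hgv,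
      LinearEquiv.apply_symm_apply, e1, e2, QuadraticMap.map_smul, e3,
      QuadraticMap.polar_smul_right]
    simp only [smul_eq_mul]
    module
  rw [key, eich_comp Q v (μ • g x) (-x) z hv
    (by rw [QuadraticMap.polar_smul_right, hgx, smul_zero])
    (by rw [QuadraticMap.polar_neg_right, hx, neg_zero]), sub_eq_add_neg]

/-- The torus element. -/
noncomputable def tor (Q : QuadraticForm F V) (v v' : V) (μ : F) : V →ₗ[F] V :=
  LinearMap.id + (μ - 1) • (Q.polarBilin v').smulRight v
    + (μ⁻¹ - 1) • (Q.polarBilin v).smulRight v'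

lemma tor_apply (Q : QuadraticForm F V) (v v' : V) (μ : F) (z : V) :
    tor Q v v' μ z = z + ((μ - 1) * polar Q z v') • v + ((μ⁻¹ - 1) * polar Q z v) • v' := by
  simp only [tor, LinearMap.add_apply, LinearMap.id_apply,
    LinearMap.smulRight_apply, LinearMap.smul_apply, QuadraticMap.polarBilin_apply_apply,
    smul_smul, QuadraticMap.polar_comm Q v z, QuadraticMap.polar_comm Q v' z]

lemma tor_comp (Q : QuadraticForm F V) (v v' : V) (μ : F) (hμ : μ ≠ 0) (hv : Q v = 0)
    (hv' : Q v' = 0) (h1 : polar Q v v' = 1) (z : V) :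
    tor Q v v' μ⁻¹ (tor Q v v' μ z) = z := by
  have h2 : polar Q v' v = 1 := by rw [QuadraticMap.polar_comm, h1]
  rw [tor_apply, tor_apply]
  simp only [QuadraticMap.polar_add_left, QuadraticMap.polar_smul_left, smul_eq_mul, h1, h2,
    polar_self0 Q v hv, polar_self0 Q v' hv', inv_inv]
  have e1 : (μ⁻¹ - 1) * (polar Q z v' + (μ - 1) * polar Q z v' * 1
      + (μ⁻¹ - 1) * polar Q z v * 0) + (μ - 1) * polar Q z v' = 0 := by
    field_simp
    ring
  have e2 : (μ - 1) * (polar Q z v + (μ - 1) * polar Q z v' * 0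
      + (μ⁻¹ - 1) * polar Q z v * 1) + (μ⁻¹ - 1) * polar Q z v = 0 := by
    field_simp
    ring
  have e3 : ∀ (a b c d : F), c + a = 0 → d + b = 0 →
      z + a • v + b • v' + c • v + d • v' = z := by
    intro a b c d h h'
    have hc : c = -a := by linear_combination h
    have hd : d = -b := by linear_combination h'
    rw [hc, hd]
    module
  exact e3 _ _ _ _ e1 e2

lemma tor_isom (Q : QuadraticForm F V) (v v' : V) (μ : F) (hμ : μ ≠ 0) (hv : Q v = 0)
    (hv' : Q v' = 0) (h1 : polar Q v v' = 1) (z : V) :
    Q (tor Q v v' μ z) = Q z := by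
  rw [tor_apply, add_assoc, QuadraticMap.map_add Q z, QuadraticMap.map_add Q _ (_ • v'),
    QuadraticMap.map_smul, QuadraticMap.map_smul, hv, hv', QuadraticMap.polar_add_right,
    QuadraticMap.polar_smul_right, QuadraticMap.polar_smul_right,
    QuadraticMap.polar_smul_right, QuadraticMap.polar_smul_left, h1]
  simp only [smul_eq_mul]
  field_simp
  ring

/-- The torus element as an equivalence. -/
noncomputable def torE (Q : QuadraticForm F V) (v v' : V) (μ : F) (hμ : μ ≠ 0) (hv : Q v = 0)
    (hv' : Q v' = 0) (h1 : polar Q v v' = 1) : V ≃ₗ[F] V :=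
  LinearEquiv.ofLinearMap (tor Q v v' μ) (tor Q v v' μ⁻¹)
    (by
      ext z
      have := tor_comp Q v v' μ⁻¹ (inv_ne_zero hμ) hv hv' h1 z
      rw [inv_inv] at this
      rw [LinearMap.comp_apply, this]
      rfl)
    (by
      ext z
      rw [LinearMap.comp_apply, tor_comp Q v v' μ hμ hv hv' h1 z]
      rfl)

/-- The reflection in a vector with `Q x = 1`. -/
noncomputable def refl1 (Q : QuadraticForm F V) (x : V) : V →ₗ[F] V :=
  LinearMap.id - (Q.polarBilin x).smulRight x

lemma refl1_apply (Q : QuadraticForm F V) (x z : V) :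
    refl1 Q x z = z - polar Q z x • x := by
  simp only [refl1, LinearMap.sub_apply, LinearMap.id_apply,
    LinearMap.smulRight_apply, QuadraticMap.polarBilin_apply_apply,
    QuadraticMap.polar_comm Q x z]

lemma refl1_comp (Q : QuadraticForm F V) (x : V) (hx : Q x = 1) (z : V) :
    refl1 Q x (refl1 Q x z) = z := by
  rw [refl1_apply, refl1_apply, sub_eq_add_neg z, QuadraticMap.polar_add_left,
    QuadraticMap.polar_neg_left, QuadraticMap.polar_smul_left, QuadraticMap.polar_self, hx]
  simp only [smul_eq_mul]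
  module

lemma refl1_isom (Q : QuadraticForm F V) (x : V) (hx : Q x = 1) (z : V) :
    Q (refl1 Q x z) = Q z := by
  rw [refl1_apply, sub_eq_add_neg, QuadraticMap.map_add Q z, QuadraticMap.map_neg,
    QuadraticMap.map_smul, hx, QuadraticMap.polar_neg_right, QuadraticMap.polar_smul_right]
  simp only [smul_eq_mul]
  ring

/-- The reflection as an equivalence. -/
noncomputable def refl1E (Q : QuadraticForm F V) (x : V) (hx : Q x = 1) : V ≃ₗ[F] V :=
  LinearEquiv.ofLinearMap (refl1 Q x) (refl1 Q x)
    (by
      ext z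
      rw [LinearMap.comp_apply, refl1_comp Q x hx]
      rfl)
    (by
      ext z
      rw [LinearMap.comp_apply, refl1_comp Q x hx]
      rfl)

lemma exists_hyp (Q : QuadraticForm F V) (hQ : ND Q) (v : V) (hv : Q v = 0) (hv0 : v ≠ 0) :
    ∃ v', Q v' = 0 ∧ polar Q v v' = 1 := by
  have h : ∃ w, polar Q v w ≠ 0 := by
    by_contra hcon
    push Not at hcon
    exact hv0 (hQ v hcon)
  obtain ⟨w, hw⟩ := h
  obtain ⟨w1, h1⟩ : ∃ w1, polar Q v w1 = 1 :=
    ⟨(polar Q v w)⁻¹ • w, by
      rw [QuadraticMap.polar_smul_right, smul_eq_mul, inv_mul_cancel₀ hw]⟩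
  refine ⟨w1 + (-Q w1) • v, ?_, ?_⟩
  · rw [QuadraticMap.map_add Q, QuadraticMap.map_smul, hv, QuadraticMap.polar_smul_right,
      QuadraticMap.polar_comm Q w1 v, h1]
    simp only [smul_eq_mul]
    ring
  · rw [QuadraticMap.polar_add_right, QuadraticMap.polar_smul_right, h1, polar_self0 Q v hv]
    simp

/-- `Q x = 1`, `x` orthogonal to the hyperbolic pair. -/
lemma em_one (Q : QuadraticForm F V) (hQ : ND Q) (v v' x : V) (hv : Q v = 0)
    (hv' : Q v' = 0) (h1 : polar Q v v' = 1) (hx : polar Q v x = 0) (hx' : polar Q v' x = 0)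
    (hQx : Q x = 1) : EM Q v x := by
  have h2 : polar Q v' v = 1 := by rw [QuadraticMap.polar_comm, h1]
  have hx0 : x ≠ 0 := by
    rintro rfl
    rw [QuadraticMap.map_zero] at hQx
    exact zero_ne_one hQx
  have h : ∃ w, polar Q x w ≠ 0 := by
    by_contra hcon
    push Not at hcon
    exact hx0 (hQ x hcon)
  obtain ⟨w, hw⟩ := h
  set u := (-(polar Q x w)⁻¹) • (w + (-polar Q w v') • v + (-polar Q w v) • v') with hu
  have hu1 : polar Q v u = 0 := by
    rw [hu, QuadraticMap.polar_smul_right, QuadraticMap.polar_add_right,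
      QuadraticMap.polar_add_right, QuadraticMap.polar_smul_right,
      QuadraticMap.polar_smul_right, h1, polar_self0 Q v hv, QuadraticMap.polar_comm Q v w]
    simp only [smul_eq_mul]
    ring
  have hu2 : polar Q u x = -1 := by
    rw [hu, QuadraticMap.polar_smul_left, QuadraticMap.polar_add_left,
      QuadraticMap.polar_add_left, QuadraticMap.polar_smul_left,
      QuadraticMap.polar_smul_left, hx, hx', QuadraticMap.polar_comm Q w x]
    simp only [smul_eq_mul]
    field_simp
    ring
  have hg : refl1E Q x hQx ∈ OV Q := fun z => refl1_isom Q x hQx z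
  have hgv : refl1E Q x hQx v = (1 : F) • v := by
    change refl1 Q x v = _
    rw [refl1_apply, hx]
    simp
  have := em_comm Q v u hv hu1 (refl1E Q x hQx) hg 1 one_ne_zero hgv
  have e : (1 : F) • (refl1E Q x hQx) u - u = x := by
    change (1 : F) • (refl1 Q x u) - u = x
    rw [refl1_apply, hu2]
    module
  rwa [e] at this

/-- Existence of a nonsingular vector orthogonal to `x` and to the pair. -/
lemma exists_one [FiniteDimensional F V] (Q : QuadraticForm F V) (hQ : ND Q)
    (hN : 5 ≤ Module.finrank F V) (h2 : ∀ μ : F, μ = 0 ∨ μ = 1) (v v' x : V) (hv : Q v = 0)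
    (hv' : Q v' = 0) (h1 : polar Q v v' = 1) (hx : polar Q v x = 0)
    (hx' : polar Q v' x = 0) :
    ∃ z, polar Q v z = 0 ∧ polar Q v' z = 0 ∧ polar Q x z = 0 ∧ Q z = 1 := by
  by_contra hcon
  push Not at hcon
  have h1' : polar Q v' v = 1 := by rw [QuadraticMap.polar_comm, h1]
  let L : Fin 3 → (V →ₗ[F] F) := ![Q.polarBilin v, Q.polarBilin v', Q.polarBilin x]
  let W : Submodule F V := LinearMap.ker (LinearMap.pi L)
  have hW : ∀ z, z ∈ W ↔ polar Q v z = 0 ∧ polar Q v' z = 0 ∧ polar Q x z = 0 := by
    intro z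
    simp only [W, LinearMap.mem_ker]
    constructor
    · intro h
      exact ⟨by simpa [L] using congrFun h 0, by simpa [L] using congrFun h 1,
        by simpa [L] using congrFun h 2⟩
    · rintro ⟨ha, hb, hc⟩
      ext i
      fin_cases i
      · simpa [L] using ha
      · simpa [L] using hb
      · simpa [L] using hc
  have hQW : ∀ z ∈ W, Q z = 0 := by
    intro z hz
    obtain ⟨ha, hb, hc⟩ := (hW z).mp hz
    exact (h2 (Q z)).resolve_right (hcon z ha hb hc)
  have hBW : ∀ z ∈ W, ∀ w ∈ W, polar Q z w = 0 := by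
    intro z hz w hw
    rw [QuadraticMap.polar, hQW _ (W.add_mem hz hw), hQW z hz, hQW w hw]
    simp
  have hdim : 2 ≤ Module.finrank F W := by
    have e1 := LinearMap.finrank_range_add_finrank_ker (LinearMap.pi L)
    have e2 : Module.finrank F (LinearMap.range (LinearMap.pi L)) ≤ 3 := by
      refine (Submodule.finrank_le _).trans ?_
      simp
    have e3 : Module.finrank F W = Module.finrank F (LinearMap.ker (LinearMap.pi L)) := rfl
    omega
  have hex : ∃ w ∈ W, w ∉ Submodule.span F {x} := by
    by_contra hcon2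
    push Not at hcon2
    have hle : W ≤ Submodule.span F {x} := hcon2
    have := Submodule.finrank_mono hle
    have h3 : Module.finrank F (Submodule.span F {x}) ≤ 1 := by
      have := finrank_span_le_card (R := F) ({x} : Set V)
      simpa using this
    omega
  obtain ⟨w, hwW, hwx⟩ := hex
  have hker : ⨅ i, LinearMap.ker (L i) ≤ LinearMap.ker (Q.polarBilin w) := by
    intro z hz
    rw [LinearMap.mem_ker, QuadraticMap.polarBilin_apply_apply]
    apply hBW w hwW z
    rw [Submodule.mem_iInf] at hz
    rw [hW]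
    exact ⟨by simpa [L] using hz 0, by simpa [L] using hz 1, by simpa [L] using hz 2⟩
  have hspan := mem_span_of_iInf_ker_le_ker hker
  rw [Submodule.mem_span_range_iff_exists_fun] at hspan
  obtain ⟨c, hc⟩ := hspan
  rw [Fin.sum_univ_three] at hc
  simp only [L] at hc
  have hc' : Q.polarBilin (c 0 • v + c 1 • v' + c 2 • x) = Q.polarBilin w := by
    rw [← hc, map_add, map_add, map_smul, map_smul, map_smul]
    rfl
  have hweq : w = c 0 • v + c 1 • v' + c 2 • x := by
    rw [← sub_eq_zero]
    apply hQ
    intro z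
    have := LinearMap.congr_fun hc' z
    simp only [QuadraticMap.polarBilin_apply_apply] at this
    rw [sub_eq_add_neg, QuadraticMap.polar_add_left, QuadraticMap.polar_neg_left, this,
      add_neg_cancel]
  obtain ⟨ha, hb, -⟩ := (hW w).mp hwW
  have hc1 : c 1 = 0 := by
    rw [hweq, QuadraticMap.polar_add_right, QuadraticMap.polar_add_right,
      QuadraticMap.polar_smul_right, QuadraticMap.polar_smul_right,
      QuadraticMap.polar_smul_right, h1, hx, polar_self0 Q v hv] at ha
    simpa using ha
  have hc0 : c 0 = 0 := by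
    rw [hweq, QuadraticMap.polar_add_right, QuadraticMap.polar_add_right,
      QuadraticMap.polar_smul_right, QuadraticMap.polar_smul_right,
      QuadraticMap.polar_smul_right, h1', hx', polar_self0 Q v' hv'] at hb
    simpa using hb
  apply hwx
  rw [hweq, hc0, hc1]
  rw [Submodule.mem_span_singleton]
  exact ⟨c 2, by simp⟩

end

/-- OEIC -/
theorem oeic : OeicStmt := by
  intro F V _ _ _ _ _ Q hQ hN v x hv hx
  suffices h : EM Q v x by
    obtain ⟨g, hg, h⟩ := h
    exact ⟨g, hg, fun z => by rw [h, eich_apply]⟩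
  rcases eq_or_ne v 0 with rfl | hv0
  · refine ⟨1, one_mem _, fun z => ?_⟩
    rw [eich_apply]
    simp
  obtain ⟨v', hv', h1⟩ := exists_hyp Q hQ v hv hv0
  have h1' : polar Q v' v = 1 := by rw [QuadraticMap.polar_comm, h1]
  -- reduction to `x` orthogonal to `v'`
  suffices hmain : ∀ x : V, polar Q v x = 0 → polar Q v' x = 0 → EM Q v x by
    have e : x = (x + (-polar Q x v') • v) + polar Q x v' • v := by module
    have hy1 : polar Q v (x + (-polar Q x v') • v) = 0 := by
      rw [QuadraticMap.polar_add_right, QuadraticMap.polar_smul_right, hx,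
        polar_self0 Q v hv]
      simp
    have hy2 : polar Q v' (x + (-polar Q x v') • v) = 0 := by
      rw [QuadraticMap.polar_add_right, QuadraticMap.polar_smul_right, h1',
        QuadraticMap.polar_comm Q v' x]
      simp
    rw [e]
    exact em_add Q v _ _ hv hy1
      (by rw [QuadraticMap.polar_smul_right, polar_self0 Q v hv, smul_zero])
      (hmain _ hy1 hy2) (em_self Q v _ hv)
  clear hx x
  intro x hx hx'
  by_cases hF : ∃ μ : F, μ ≠ 0 ∧ μ ≠ 1
  · obtain ⟨μ, hμ0, hμ1⟩ := hF
    have hμ1' : μ - 1 ≠ 0 := sub_ne_zero.mpr hμ1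
    set y := (μ - 1)⁻¹ • x with hy
    have hyv : polar Q v y = 0 := by
      rw [hy, QuadraticMap.polar_smul_right, hx, smul_zero]
    have hyv' : polar Q v' y = 0 := by
      rw [hy, QuadraticMap.polar_smul_right, hx', smul_zero]
    have hg : torE Q v v' μ hμ0 hv hv' h1 ∈ OV Q :=
      fun z => tor_isom Q v v' μ hμ0 hv hv' h1 z
    have hgv : torE Q v v' μ hμ0 hv hv' h1 v = μ • v := by
      change tor Q v v' μ v = _
      rw [tor_apply, h1, polar_self0 Q v hv]
      module
    have hgy : torE Q v v' μ hμ0 hv hv' h1 y = y := by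
      change tor Q v v' μ y = _
      rw [tor_apply, QuadraticMap.polar_comm Q y v', QuadraticMap.polar_comm Q y v, hyv,
        hyv']
      simp
    have := em_comm Q v y hv hyv (torE Q v v' μ hμ0 hv hv' h1) hg μ hμ0 hgv
    rw [hgy] at this
    have e : μ • y - y = x := by
      rw [hy, smul_smul, ← sub_smul]
      have : μ * (μ - 1)⁻¹ - (μ - 1)⁻¹ = 1 := by
        field_simp
      rw [this, one_smul]
    rwa [e] at this
  · have h2 : ∀ μ : F, μ = 0 ∨ μ = 1 := by
      intro μ
      by_contra hcon
      push Not at hcon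
      exact hF ⟨μ, hcon⟩
    rcases h2 (Q x) with hQx | hQx
    · obtain ⟨z, hz1, hz2, hz3, hz4⟩ := exists_one Q hQ hN h2 v v' x hv hv' h1 hx hx'
      have e : x = (x + (-1 : F) • z) + z := by module
      have ha : polar Q v (x + (-1 : F) • z) = 0 := by
        rw [QuadraticMap.polar_add_right, QuadraticMap.polar_smul_right, hx, hz1]
        simp
      have hb : polar Q v' (x + (-1 : F) • z) = 0 := by
        rw [QuadraticMap.polar_add_right, QuadraticMap.polar_smul_right, hx', hz2]
        simp
      have hc : Q (x + (-1 : F) • z) = 1 := by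
        rw [QuadraticMap.map_add Q, QuadraticMap.map_smul, QuadraticMap.polar_smul_right,
          hQx, hz3, hz4]
        simp
      rw [e]
      exact em_add Q v _ _ hv ha hz1 (em_one Q hQ v v' _ hv hv' h1 ha hb hc)
        (em_one Q hQ v v' _ hv hv' h1 hz1 hz2 hz4)
    · exact em_one Q hQ v v' x hv hv' h1 hx hx' hQx

end Pool.Agent.Eng.H61
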