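import Pool.Agent.Helper99_Eng3.Stmts

/-!
# Squad ENG, part 3, module OEXT: extension of isometries by the identity on the complement.
-/

set_option autoImplicit false

set_option linter.unusedSectionVars false

namespace Pool.Agent.Eng.H61

open Pool.Agent.Eng

section
variable {F U V : Type} [Field F] [AddCommGroup U] [Module F U]
  [AddCommGroup V] [Module F V] [FiniteDimensional F U] [FiniteDimensional F V]

/-- The isomorphism of `U` with its dual given by the polar form. -/
noncomputable def polEquiv (P : QuadraticForm F U) (hP : ND P) : U ≃ₗ[F] Module.Dual F U :=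
  LinearMap.linearEquivOfInjective (V₂ := Module.Dual F U) P.polarBilin (by
    rw [injective_iff_map_eq_zero]
    intro u hu
    apply hP u
    intro v
    have := LinearMap.congr_fun hu v
    simpa using this) (Subspace.dual_finrank_eq).symm

/-- The orthogonal projection of `V` to `U`. -/
noncomputable def oproj (P : QuadraticForm F U) (hP : ND P) (Q : QuadraticForm F V)
    (ι : U →ₗ[F] V) : V →ₗ[F] U :=
  ((polEquiv P hP).symm : Module.Dual F U →ₗ[F] U) ∘ₗ ι.dualMap ∘ₗ Q.polarBilin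

lemma polar_oproj (P : QuadraticForm F U) (hP : ND P) (Q : QuadraticForm F V)
    (ι : U →ₗ[F] V) (v : V) (u : U) :
    QuadraticMap.polar P (oproj P hP Q ι v) u = QuadraticMap.polar Q v (ι u) := by
  have h : (polEquiv P hP) (oproj P hP Q ι v) = ι.dualMap (Q.polarBilin v) := by
    simp only [oproj, LinearMap.comp_apply, LinearEquiv.coe_coe, LinearEquiv.apply_symm_apply]
  have h2 := LinearMap.congr_fun h u
  simpa [polEquiv] using h2

lemma oproj_eq (P : QuadraticForm F U) (hP : ND P) (Q : QuadraticForm F V)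
    (ι : U →ₗ[F] V) (v : V) (w : U)
    (h : ∀ u, QuadraticMap.polar Q v (ι u) = QuadraticMap.polar P w u) :
    oproj P hP Q ι v = w := by
  rw [← sub_eq_zero]
  apply hP
  intro u
  rw [sub_eq_add_neg, QuadraticMap.polar_add_left, QuadraticMap.polar_neg_left,
    polar_oproj, h, add_neg_cancel]

lemma polar_iota (P : QuadraticForm F U) (Q : QuadraticForm F V)
    (ι : U →ₗ[F] V) (hQ : ∀ u, Q (ι u) = P u) (u w : U) :
    QuadraticMap.polar Q (ι u) (ι w) = QuadraticMap.polar P u w := by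
  simp only [QuadraticMap.polar, ← map_add, hQ]

lemma oproj_iota (P : QuadraticForm F U) (hP : ND P) (Q : QuadraticForm F V)
    (ι : U →ₗ[F] V) (hQ : ∀ u, Q (ι u) = P u) (u : U) :
    oproj P hP Q ι (ι u) = u :=
  oproj_eq P hP Q ι _ _ (fun w => polar_iota P Q ι hQ u w)

/-- The extension as a linear map. -/
noncomputable def extL (P : QuadraticForm F U) (hP : ND P) (Q : QuadraticForm F V)
    (ι : U →ₗ[F] V) (g : U ≃ₗ[F] U) : V →ₗ[F] V :=
  LinearMap.id + ι ∘ₗ ((g : U →ₗ[F] U) - LinearMap.id) ∘ₗ oproj P hP Q ι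

lemma extL_apply (P : QuadraticForm F U) (hP : ND P) (Q : QuadraticForm F V)
    (ι : U →ₗ[F] V) (g : U ≃ₗ[F] U) (v : V) :
    extL P hP Q ι g v = v + ι (g (oproj P hP Q ι v) - oproj P hP Q ι v) := by
  simp [extL]

lemma oproj_extL (P : QuadraticForm F U) (hP : ND P) (Q : QuadraticForm F V)
    (ι : U →ₗ[F] V) (hQ : ∀ u, Q (ι u) = P u) (g : U ≃ₗ[F] U) (v : V) :
    oproj P hP Q ι (extL P hP Q ι g v) = g (oproj P hP Q ι v) := by
  rw [extL_apply, map_add, oproj_iota P hP Q ι hQ]
  abel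

lemma extL_mul (P : QuadraticForm F U) (hP : ND P) (Q : QuadraticForm F V)
    (ι : U →ₗ[F] V) (hQ : ∀ u, Q (ι u) = P u) (g h : U ≃ₗ[F] U) (v : V) :
    extL P hP Q ι g (extL P hP Q ι h v) = extL P hP Q ι (g * h) v := by
  rw [extL_apply P hP Q ι g, oproj_extL P hP Q ι hQ, extL_apply P hP Q ι h,
    extL_apply P hP Q ι (g * h)]
  rw [add_assoc, ← map_add]
  congr 2
  change _ = g (h _) - _
  abel

lemma extL_one (P : QuadraticForm F U) (hP : ND P) (Q : QuadraticForm F V)
    (ι : U →ₗ[F] V) (v : V) :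
    extL P hP Q ι 1 v = v := by
  rw [extL_apply]
  change v + ι (oproj P hP Q ι v - oproj P hP Q ι v) = v
  simp

/-- The extension as a linear equivalence. -/
noncomputable def extE (P : QuadraticForm F U) (hP : ND P) (Q : QuadraticForm F V)
    (ι : U →ₗ[F] V) (hQ : ∀ u, Q (ι u) = P u) (g : U ≃ₗ[F] U) : V ≃ₗ[F] V :=
  LinearEquiv.ofLinearMap (extL P hP Q ι g) (extL P hP Q ι g⁻¹)
    (by
      ext v
      rw [LinearMap.comp_apply, extL_mul P hP Q ι hQ, mul_inv_cancel, extL_one]
      rfl)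
    (by
      ext v
      rw [LinearMap.comp_apply, extL_mul P hP Q ι hQ, inv_mul_cancel, extL_one]
      rfl)

lemma extE_apply (P : QuadraticForm F U) (hP : ND P) (Q : QuadraticForm F V)
    (ι : U →ₗ[F] V) (hQ : ∀ u, Q (ι u) = P u) (g : U ≃ₗ[F] U) (v : V) :
    extE P hP Q ι hQ g v = v + ι (g (oproj P hP Q ι v) - oproj P hP Q ι v) :=
  extL_apply P hP Q ι g v

/-- The extension as a homomorphism. -/
noncomputable def extH (P : QuadraticForm F U) (hP : ND P) (Q : QuadraticForm F V)
    (ι : U →ₗ[F] V) (hQ : ∀ u, Q (ι u) = P u) : ↥(OV P) →* (V ≃ₗ[F] V) where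
  toFun g := extE P hP Q ι hQ g
  map_one' := by
    ext v
    exact extL_one P hP Q ι v
  map_mul' := by
    intro g h
    ext v
    exact (extL_mul P hP Q ι hQ g h v).symm

/-- OEXT -/
theorem oext : OextStmt := by
  intro F U V _ _ _ _ _ _ _ P Q ι hP hQ
  have hO : ∀ g : ↥(OV P), extH P hP Q ι hQ g ∈ OV Q := by
    intro g v
    change Q (extE P hP Q ι hQ g v) = Q v
    rw [extE_apply]
    set w := (g : U ≃ₗ[F] U) (oproj P hP Q ι v) - oproj P hP Q ι v with hw
    have h1 : P ((g : U ≃ₗ[F] U) (oproj P hP Q ι v)) = P (oproj P hP Q ι v) := g.2 _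
    have h2 : (g : U ≃ₗ[F] U) (oproj P hP Q ι v) = oproj P hP Q ι v + w := by
      rw [hw]; abel
    rw [h2, QuadraticMap.map_add P, polar_oproj] at h1
    rw [QuadraticMap.map_add Q, hQ]
    rw [add_assoc] at h1 ⊢
    have h3 := add_eq_left.mp h1
    rw [h3, add_zero]
  refine ⟨extH P hP Q ι hQ, hO, ?_, ?_, ?_⟩
  · intro g u
    change extE P hP Q ι hQ g (ι u) = _
    rw [extE_apply, oproj_iota P hP Q ι hQ, ← map_add]
    congr 1
    abel
  · intro g v hv
    change extE P hP Q ι hQ g v = v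
    have : oproj P hP Q ι v = 0 := by
      apply oproj_eq
      intro u
      rw [hv u, QuadraticMap.polar_zero_left]
    rw [extE_apply, this]
    simp
  · intro g hg
    have h1 : (⁅(⊤ : Subgroup ↥(OV P)), (⊤ : Subgroup ↥(OV P))⁆).map (OV P).subtype
        = OmV P := by
      rw [Subgroup.map_commutator, OmV]
      congr 1 <;> · rw [← MonoidHom.range_eq_map, Subgroup.range_subtype]
    have h2 : g ∈ ⁅(⊤ : Subgroup ↥(OV P)), (⊤ : Subgroup ↥(OV P))⁆ := by
      rw [← h1] at hg
      obtain ⟨k, hk, hk2⟩ := hg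
      have : k = g := Subtype.ext hk2
      rw [← this]
      exact hk
    have h3 : extH P hP Q ι hQ g ∈
        (⁅(⊤ : Subgroup ↥(OV P)), (⊤ : Subgroup ↥(OV P))⁆).map (extH P hP Q ι hQ) :=
      Subgroup.mem_map_of_mem _ h2
    rw [Subgroup.map_commutator] at h3
    refine Subgroup.commutator_mono ?_ ?_ h3 <;>
    · rintro _ ⟨k, _, rfl⟩
      exact hO k

end

end Pool.Agent.Eng.H61
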